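import Pool.Agent.W181.RT.Props

/-! S_DUAL (Poincaré duality for `RR ℓ k`) from S_ALT and S_HD. -/

set_option autoImplicit false

namespace Pool.Agent.W241.RT

open Pool.Agent.W181.RT

abbrev MP (l : ℕ) : Type := MvPolynomial (Fin l) ℚ

noncomputable def sg {l : ℕ} (σ : Equiv.Perm (Fin l)) : ℚ := ((Equiv.Perm.sign σ : ℤ) : ℚ)

theorem sg_mul_self {l : ℕ} (σ : Equiv.Perm (Fin l)) : sg σ * sg σ = 1 := by
  rcases Int.units_eq_one_or (Equiv.Perm.sign σ) with h | h <;> simp [sg, h]

theorem sg_inv {l : ℕ} (σ : Equiv.Perm (Fin l)) : sg σ⁻¹ = sg σ := by simp [sg]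

noncomputable def Alt (l : ℕ) : MP l →ₗ[ℚ] MP l :=
  ∑ σ : Equiv.Perm (Fin l), sg σ • (MvPolynomial.rename (R := ℚ) σ).toLinearMap

theorem Alt_apply (l : ℕ) (F : MP l) :
    Alt l F = ∑ σ : Equiv.Perm (Fin l), sg σ • MvPolynomial.rename σ F := by
  simp [Alt, LinearMap.sum_apply]

theorem alt_mono (l : ℕ) (α : Fin l → ℕ) :
    Matrix.det (Matrix.of fun (r j : Fin l) => (MvPolynomial.X j : MP l) ^ (α r))
      = Alt l (∏ j, (MvPolynomial.X j : MP l) ^ α j) := by
  rw [Matrix.det_apply', Alt_apply, ← Equiv.sum_comp (Equiv.inv (Equiv.Perm (Fin l)))]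
  apply Finset.sum_congr rfl
  intro σ _
  simp only [Equiv.inv_apply, map_prod, map_pow, MvPolynomial.rename_X, Matrix.of_apply]
  rw [MvPolynomial.smul_eq_C_mul]
  congr 1
  · simp [sg]
  · rw [← Equiv.prod_comp σ (fun j => (MvPolynomial.X j : MP l) ^ α (σ⁻¹ j))]
    simp

theorem rename_Vd (l : ℕ) (σ : Equiv.Perm (Fin l)) :
    MvPolynomial.rename σ (Vd ℚ l) = sg σ • Vd ℚ l := by
  rw [Vd, AlgHom.map_det]
  have h : (MvPolynomial.rename (R := ℚ) σ).mapMatrix
      (Matrix.of fun (j c : Fin l) => (MvPolynomial.X j : MP l) ^ (c : ℕ))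
      = (Matrix.of fun (j c : Fin l) => (MvPolynomial.X j : MP l) ^ (c : ℕ)).submatrix σ id := by
    ext1 i j
    simp [Matrix.map_apply]
  rw [h, Matrix.det_permute, MvPolynomial.smul_eq_C_mul]
  simp [sg]

theorem rename_ey (l : ℕ) (σ : Equiv.Perm (Fin l)) (g : MP l) :
    MvPolynomial.rename σ (ey ℚ l g) = ey ℚ l g := by
  have h : (MvPolynomial.rename (R := ℚ) σ).comp (ey ℚ l) = ey ℚ l := by
    apply MvPolynomial.algHom_ext
    intro c
    simp [ey, MvPolynomial.rename_esymm]
  exact congrArg (fun f => f g) h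

theorem rename_F (l : ℕ) (σ : Equiv.Perm (Fin l)) (g : MP l) :
    MvPolynomial.rename σ (ey ℚ l g * Vd ℚ l) = sg σ • (ey ℚ l g * Vd ℚ l) := by
  rw [map_mul, rename_ey, rename_Vd, mul_smul_comm]

/-- constant exponent -/
noncomputable def cst (l N : ℕ) : Fin l →₀ ℕ := Finsupp.equivFunOnFinite.symm (fun _ => N)

@[simp] theorem cst_apply (l N : ℕ) (j : Fin l) : cst l N j = N := rfl

theorem coeff_cst_rename (l N : ℕ) (σ : Equiv.Perm (Fin l)) (P : MP l) :
    MvPolynomial.coeff (cst l N) (MvPolynomial.rename σ P) = MvPolynomial.coeff (cst l N) P := by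
  have h : Finsupp.mapDomain σ (cst l N) = cst l N := by
    ext a
    rw [Finsupp.mapDomain_equiv_apply]
    rfl
  conv_lhs => rw [← h]
  exact MvPolynomial.coeff_rename_mapDomain σ σ.injective P _

theorem coeff_F_Alt (l N : ℕ) (g u : MP l) :
    MvPolynomial.coeff (cst l N) (ey ℚ l g * Vd ℚ l * Alt l u)
      = (l.factorial : ℚ) * MvPolynomial.coeff (cst l N) (ey ℚ l g * Vd ℚ l * u) := by
  rw [Alt_apply, Finset.mul_sum, MvPolynomial.coeff_sum]
  have h : ∀ σ : Equiv.Perm (Fin l), MvPolynomial.coeff (cst l N)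
      (ey ℚ l g * Vd ℚ l * (sg σ • MvPolynomial.rename σ u))
      = MvPolynomial.coeff (cst l N) (ey ℚ l g * Vd ℚ l * u) := by
    intro σ
    have h1 : ey ℚ l g * Vd ℚ l * (sg σ • MvPolynomial.rename σ u)
        = MvPolynomial.rename σ (ey ℚ l g * Vd ℚ l * u) := by
      rw [map_mul, rename_F, mul_smul_comm, smul_mul_assoc]
    rw [h1, coeff_cst_rename]
  rw [Finset.sum_congr rfl (fun σ _ => h σ)]
  rw [Finset.sum_const, Finset.card_univ, Fintype.card_perm, Fintype.card_fin, nsmul_eq_mul]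

theorem Alt_F (l : ℕ) (g : MP l) :
    Alt l (ey ℚ l g * Vd ℚ l) = (l.factorial : ℚ) • (ey ℚ l g * Vd ℚ l) := by
  rw [Alt_apply]
  have h : ∀ σ : Equiv.Perm (Fin l), sg σ • MvPolynomial.rename σ (ey ℚ l g * Vd ℚ l)
      = ey ℚ l g * Vd ℚ l := by
    intro σ
    rw [rename_F, smul_smul, sg_mul_self, one_smul]
  rw [Finset.sum_congr rfl (fun σ _ => h σ)]
  rw [Finset.sum_const, Finset.card_univ, Fintype.card_perm, Fintype.card_fin,
    ← Nat.cast_smul_eq_nsmul ℚ]

theorem mono_eq (l : ℕ) (γ : Fin l →₀ ℕ) (c : ℚ) :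
    (MvPolynomial.monomial γ c : MP l) = c • ∏ j, (MvPolynomial.X j : MP l) ^ γ j := by
  rw [MvPolynomial.monomial_eq, MvPolynomial.smul_eq_C_mul, Finsupp.prod_fintype]
  intro i
  simp

theorem Alt_eq (hA : S_ALT) (l : ℕ) (F : MP l) :
    Alt l F = ∑ γ ∈ F.support, MvPolynomial.coeff γ F • (ey ℚ l (gal ℚ l γ) * Vd ℚ l) := by
  conv_lhs => rw [F.as_sum]
  rw [map_sum]
  apply Finset.sum_congr rfl
  intro γ _
  rw [mono_eq, map_smul, ← alt_mono, hA ℚ l γ]

/-! ### the ideal `J` -/

noncomputable def J (l n : ℕ) : Ideal (MP l) := Ideal.span (Set.range fun j : Fin l => (MvPolynomial.X j : MP l) ^ n)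

theorem J_coeff (l n : ℕ) (x : MP l) (hx : x ∈ J l n) :
    ∀ γ : Fin l →₀ ℕ, (∀ j, γ j < n) → MvPolynomial.coeff γ x = 0 := by
  induction hx using Submodule.span_induction with
  | mem x hx =>
    intro γ hγ
    obtain ⟨j, rfl⟩ := hx
    simp only
    rw [MvPolynomial.X_pow_eq_monomial, MvPolynomial.coeff_monomial, if_neg]
    intro h
    have := hγ j
    rw [← h] at this
    simp at this
  | zero => simp
  | add x y _ _ hx hy =>
    intro γ hγ
    rw [MvPolynomial.coeff_add, hx γ hγ, hy γ hγ, add_zero]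
  | smul a x hx' hx =>
    intro γ hγ
    rw [smul_eq_mul, MvPolynomial.coeff_mul]
    apply Finset.sum_eq_zero
    intro p hp
    replace hp := Finset.HasAntidiagonal.mem_antidiagonal.mp hp
    rw [hx p.2, mul_zero]
    intro j
    have h1 := hγ j
    rw [← hp, Finsupp.add_apply] at h1
    omega

/-! ### the map `Ψ` -/

/-- coefficients of `1 / D` -/
noncomputable def iv (l b : ℕ) : MP l :=
  PowerSeries.coeff b (PowerSeries.invOfUnit (Dp ℚ l) 1)

noncomputable def Psi (l k : ℕ) : AA l k →ₐ[ℚ] MP l :=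
  MvPolynomial.aeval (Sum.elim (fun i : Fin l => MvPolynomial.esymm (Fin l) ℚ (i.val + 1))
    (fun j : Fin k => ey ℚ l (iv l (j.val + 1))))

theorem constCoeff_Dp (l : ℕ) : PowerSeries.constantCoeff (Dp ℚ l) = 1 := by
  rw [Dp, map_add, map_one, map_sum]
  simp

theorem Dp_mul_iv (l : ℕ) : Dp ℚ l * PowerSeries.invOfUnit (Dp ℚ l) 1 = 1 :=
  PowerSeries.mul_invOfUnit _ _ (by rw [constCoeff_Dp]; rfl)

theorem coeff_Dp_zero (l : ℕ) : PowerSeries.coeff 0 (Dp ℚ l) = 1 := by
  rw [PowerSeries.coeff_zero_eq_constantCoeff_apply, constCoeff_Dp]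

theorem iv_zero (l : ℕ) : iv l 0 = 1 := by
  rw [iv, PowerSeries.coeff_zero_eq_constantCoeff_apply, PowerSeries.constantCoeff_invOfUnit]
  rfl

theorem coeff_Dp (l n : ℕ) (hn : n ≠ 0) : PowerSeries.coeff n (Dp ℚ l)
    = ∑ c : Fin l, if n = c.val + 1 then (-1 : MP l) ^ (c.val + 1) * MvPolynomial.X c else 0 := by
  rw [Dp, map_add, map_sum, PowerSeries.coeff_one, if_neg hn, zero_add]
  apply Finset.sum_congr rfl
  intro c _
  rw [PowerSeries.coeff_C_mul, PowerSeries.coeff_X_pow]
  split_ifs <;> simp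

theorem Psi_Sg (l k n : ℕ) : Psi l k ((Sg l k).coeff n) = ey ℚ l (PowerSeries.coeff n (Dp ℚ l)) := by
  rcases Nat.eq_zero_or_pos n with h | h
  · subst h
    rw [coeff_Sg_zero, coeff_Dp_zero, map_one, map_one]
  · rw [coeff_Dp l n (by omega), Sg, Polynomial.coeff_add, Polynomial.finsetSum_coeff,
      Polynomial.coeff_one, if_neg (by omega), zero_add, map_sum, map_sum]
    apply Finset.sum_congr rfl
    intro c _
    rw [Polynomial.coeff_C_mul, Polynomial.coeff_X_pow]
    split_ifs
    · simp [Psi, ey]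
    · simp

theorem Psi_Tg (l k n : ℕ) (hn : n ≤ k) : Psi l k ((Tg l k).coeff n) = ey ℚ l (iv l n) := by
  rcases Nat.eq_zero_or_pos n with h | h
  · subst h
    rw [coeff_Tg_zero, iv_zero, map_one, map_one]
  · rw [Tg, Polynomial.coeff_add, Polynomial.finsetSum_coeff,
      Polynomial.coeff_one, if_neg (by omega), zero_add, map_sum]
    rw [Finset.sum_eq_single (⟨n - 1, by omega⟩ : Fin k)]
    · rw [Polynomial.coeff_C_mul, Polynomial.coeff_X_pow, if_pos (by simp; omega), mul_one]
      simp only [Psi, MvPolynomial.aeval_X, Sum.elim_inr]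
      congr 2
      omega
    · intro c _ hc
      rw [Polynomial.coeff_C_mul, Polynomial.coeff_X_pow, if_neg, mul_zero, map_zero]
      intro h
      apply hc
      ext
      simp
      omega
    · intro h
      exact absurd (Finset.mem_univ _) h

theorem iv_mem_J (hH : S_HD) (l k b : ℕ) (hb : k < b) :
    ey ℚ l (iv l b) * Vd ℚ l ∈ J l (k + l) := by
  rcases Nat.eq_zero_or_pos l with h | h
  · subst h
    have h1 : iv 0 b = 0 := by
      have h2 := Dp_mul_iv 0
      have h3 : Dp ℚ 0 = 1 := by simp [Dp]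
      rw [h3, one_mul] at h2
      rw [iv, h3, h2, PowerSeries.coeff_one, if_neg (by omega)]
    rw [h1, map_zero, zero_mul]
    exact Ideal.zero_mem _
  · obtain ⟨cof, hc⟩ := hH ℚ l h
    have h1 := hc (b + l - 1)
    rw [if_neg (by omega)] at h1
    have h2 : b + l - 1 + 1 - l = b := by omega
    rw [h2] at h1
    rw [iv, ← h1]
    apply Ideal.sum_mem
    intro j _
    apply Ideal.mul_mem_right
    have h3 : b + l - 1 = (k + l) + (b - 1 - k) := by omega
    rw [h3, pow_add]
    apply Ideal.mul_mem_right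
    exact Ideal.subset_span ⟨j, rfl⟩

theorem Psi_II (hH : S_HD) (l k : ℕ) (x : AA l k) (hx : x ∈ II l k) :
    Psi l k x * Vd ℚ l ∈ J l (k + l) := by
  rw [II] at hx
  induction hx using Submodule.span_induction with
  | zero => rw [map_zero, zero_mul]; exact Ideal.zero_mem _
  | add x y _ _ hx hy => rw [map_add, add_mul]; exact Ideal.add_mem _ hx hy
  | smul a x hx' hx =>
    rw [smul_eq_mul, map_mul, mul_assoc]
    exact Ideal.mul_mem_left _ _ hx
  | mem x hx =>
    obtain ⟨n, hn, rfl⟩ := hx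
    rw [Polynomial.coeff_mul, map_sum]
    have h1 : ∑ p ∈ Finset.HasAntidiagonal.antidiagonal n, ey ℚ l (PowerSeries.coeff p.1 (Dp ℚ l)) * ey ℚ l (iv l p.2)
        = 0 := by
      have h2 := congrArg (PowerSeries.coeff n) (Dp_mul_iv l)
      rw [PowerSeries.coeff_mul, PowerSeries.coeff_one, if_neg (by omega)] at h2
      have h3 := congrArg (ey ℚ l) h2
      rw [map_sum, map_zero] at h3
      rw [← h3]
      apply Finset.sum_congr rfl
      intro p _
      rw [map_mul]
      rfl
    have h2 : (∑ p ∈ Finset.HasAntidiagonal.antidiagonal n, Psi l k ((Sg l k).coeff p.1 * (Tg l k).coeff p.2))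
        = - ∑ p ∈ Finset.HasAntidiagonal.antidiagonal n, (if p.2 ≤ k then 0 else
          ey ℚ l (PowerSeries.coeff p.1 (Dp ℚ l)) * ey ℚ l (iv l p.2)) := by
      rw [eq_neg_iff_add_eq_zero, ← Finset.sum_add_distrib]
      refine Eq.trans ?_ h1
      apply Finset.sum_congr rfl
      intro p _
      split_ifs with h
      · rw [map_mul, Psi_Sg, Psi_Tg _ _ _ h, add_zero]
      · rw [Tg_coeff_big l k p.2 (by omega), mul_zero, map_zero, zero_add]
    rw [h2, neg_mul, Finset.sum_mul]
    apply neg_mem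
    apply Ideal.sum_mem
    intro p _
    split_ifs with h
    · rw [zero_mul]; exact Ideal.zero_mem _
    · rw [mul_assoc]
      exact Ideal.mul_mem_left _ _ (iv_mem_J hH l k p.2 (by omega))

/-! ### the functional -/

noncomputable def L0 (l k : ℕ) : AA l k →ₗ[ℚ] ℚ :=
  (MvPolynomial.lcoeff ℚ (cst l (k + l - 1))) ∘ₗ
    ((LinearMap.mulRight ℚ (Vd ℚ l * Vd ℚ l)) ∘ₗ (Psi l k).toLinearMap)

theorem L0_apply (l k : ℕ) (x : AA l k) :
    L0 l k x = MvPolynomial.coeff (cst l (k + l - 1)) (Psi l k x * (Vd ℚ l * Vd ℚ l)) := rfl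

theorem L0_II (hH : S_HD) (l k : ℕ) (x : AA l k) (hx : x ∈ II l k) : L0 l k x = 0 := by
  rw [L0_apply, ← mul_assoc]
  apply J_coeff l (k + l) _ (Ideal.mul_mem_right _ _ (Psi_II hH l k x hx))
  intro j
  rw [cst_apply]
  have := j.2
  omega

/-! ### homogeneity -/

noncomputable def tau (l : ℕ) : MP l →ₐ[ℚ] MP l :=
  MvPolynomial.aeval (fun j : Fin l => MvPolynomial.C (2 : ℚ) * MvPolynomial.X j)

theorem tau_esymm (l n : ℕ) : tau l (MvPolynomial.esymm (Fin l) ℚ n)
    = MvPolynomial.C ((2 : ℚ) ^ n) * MvPolynomial.esymm (Fin l) ℚ n := by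
  rw [MvPolynomial.esymm, map_sum, Finset.mul_sum]
  apply Finset.sum_congr rfl
  intro t ht
  rw [Finset.mem_powersetCard] at ht
  rw [map_prod]
  simp only [tau, MvPolynomial.aeval_X]
  rw [Finset.prod_mul_distrib, Finset.prod_const, ht.2, map_pow]

theorem tau_eD (l n : ℕ) : tau l (ey ℚ l (PowerSeries.coeff n (Dp ℚ l)))
    = MvPolynomial.C ((2 : ℚ) ^ n) * ey ℚ l (PowerSeries.coeff n (Dp ℚ l)) := by
  rcases Nat.eq_zero_or_pos n with h | h
  · subst h
    rw [coeff_Dp_zero]
    simp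
  · rw [coeff_Dp l n (by omega), map_sum, map_sum, Finset.mul_sum]
    apply Finset.sum_congr rfl
    intro c _
    split_ifs with hc
    · subst hc
      simp only [ey, map_mul, map_pow, map_neg, map_one, MvPolynomial.aeval_X]
      rw [tau_esymm]
      simp only [map_pow]
      ring
    · simp

theorem tau_eiv (l n : ℕ) : tau l (ey ℚ l (iv l n))
    = MvPolynomial.C ((2 : ℚ) ^ n) * ey ℚ l (iv l n) := by
  set E : PowerSeries (MP l) := PowerSeries.map (ey ℚ l).toRingHom (Dp ℚ l) with hE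
  set H : PowerSeries (MP l) := PowerSeries.map (ey ℚ l).toRingHom
    (PowerSeries.invOfUnit (Dp ℚ l) 1) with hH
  have h1 : E * H = 1 := by
    rw [hE, hH, ← map_mul, Dp_mul_iv, map_one]
  have h2 : PowerSeries.map (tau l).toRingHom E * PowerSeries.map (tau l).toRingHom H = 1 := by
    rw [← map_mul, h1, map_one]
  have h3 : PowerSeries.map (tau l).toRingHom E
      = PowerSeries.rescale (MvPolynomial.C (2 : ℚ) : MP l) E := by
    ext1 m
    rw [PowerSeries.coeff_map, PowerSeries.coeff_rescale, hE, PowerSeries.coeff_map]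
    have := tau_eD l m
    rw [map_pow] at this
    exact this
  have h4 : PowerSeries.rescale (MvPolynomial.C (2 : ℚ) : MP l) E
      * PowerSeries.rescale (MvPolynomial.C (2 : ℚ) : MP l) H = 1 := by
    rw [← map_mul, h1, map_one]
  have h5 : PowerSeries.map (tau l).toRingHom H
      = PowerSeries.rescale (MvPolynomial.C (2 : ℚ) : MP l) H := by
    rw [h3] at h2
    calc PowerSeries.map (tau l).toRingHom H
        = (PowerSeries.rescale (MvPolynomial.C (2 : ℚ) : MP l) E
          * PowerSeries.rescale (MvPolynomial.C (2 : ℚ) : MP l) H)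
            * PowerSeries.map (tau l).toRingHom H := by rw [h4, one_mul]
      _ = (PowerSeries.rescale (MvPolynomial.C (2 : ℚ) : MP l) E *
            PowerSeries.map (tau l).toRingHom H)
            * PowerSeries.rescale (MvPolynomial.C (2 : ℚ) : MP l) H := by ring
      _ = _ := by rw [h2, one_mul]
  have h6 := congrArg (PowerSeries.coeff n) h5
  rw [PowerSeries.coeff_map, PowerSeries.coeff_rescale, hH, PowerSeries.coeff_map] at h6
  rw [map_pow]
  exact h6

theorem tau_Psi (l k : ℕ) (x : AA l k) : Psi l k (sigA l k x) = tau l (Psi l k x) := by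
  have h : (Psi l k).comp (sigA l k) = (tau l).comp (Psi l k) := by
    apply MvPolynomial.algHom_ext
    intro c
    rw [AlgHom.comp_apply, AlgHom.comp_apply]
    rcases c with i | j
    · simp only [sigA, MvPolynomial.aeval_X, Psi, ww, Sum.elim_inl, map_mul]
      rw [tau_esymm]
      congr 1
      rw [MvPolynomial.algHom_C]
      rfl
    · simp only [sigA, MvPolynomial.aeval_X, Psi, ww, Sum.elim_inr, map_mul]
      rw [tau_eiv]
      congr 1
      rw [MvPolynomial.algHom_C]
      rfl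
  exact congrArg (fun f => f x) h

theorem coeff_tau (l : ℕ) (F : MP l) (m : Fin l →₀ ℕ) :
    MvPolynomial.coeff m (tau l F) = (2 : ℚ) ^ (∑ j, m j) * MvPolynomial.coeff m F := by
  have h : ∀ (s : Fin l →₀ ℕ) (a : ℚ), tau l (MvPolynomial.monomial s a)
      = MvPolynomial.monomial s ((2 : ℚ) ^ (∑ j, s j) * a) := by
    intro s a
    rw [mono_eq, map_smul, map_prod, mono_eq, mul_smul, smul_comm]
    congr 1
    simp only [tau, map_pow, MvPolynomial.aeval_X, mul_pow]
    rw [Finset.prod_mul_distrib, MvPolynomial.smul_eq_C_mul]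
    congr 1
    rw [← Finset.prod_pow_eq_pow_sum]
    simp [map_prod]
  conv_lhs => rw [F.as_sum]
  rw [map_sum, MvPolynomial.coeff_sum]
  have h2 : ∀ s ∈ F.support, MvPolynomial.coeff m (tau l (MvPolynomial.monomial s
      (MvPolynomial.coeff s F))) = if s = m then (2 : ℚ) ^ (∑ j, m j) * MvPolynomial.coeff m F else 0 := by
    intro s _
    rw [h, MvPolynomial.coeff_monomial]
    split_ifs with hs
    · rw [hs]
    · rfl
  rw [Finset.sum_congr rfl h2, Finset.sum_ite_eq']
  split_ifs with hm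
  · rfl
  · rw [MvPolynomial.notMem_support_iff.mp hm, mul_zero]

theorem tau_Vd (l : ℕ) : tau l (Vd ℚ l) = MvPolynomial.C ((2 : ℚ) ^ (∑ c : Fin l, (c : ℕ))) * Vd ℚ l := by
  rw [Vd, AlgHom.map_det]
  have h : (tau l).mapMatrix
      (Matrix.of fun (j c : Fin l) => (MvPolynomial.X j : MP l) ^ (c : ℕ))
      = Matrix.of fun (j c : Fin l) => (MvPolynomial.C ((2 : ℚ) ^ (c : ℕ)) : MP l) *
        (Matrix.of fun (j c : Fin l) => (MvPolynomial.X j : MP l) ^ (c : ℕ)) j c := by
    ext1 i j
    simp [tau, mul_pow]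
  rw [h, Matrix.det_mul_row]
  congr 1
  rw [← Finset.prod_pow_eq_pow_sum, map_prod]

theorem L0_sig (l k : ℕ) (x : AA l k) : L0 l k (sigA l k x) = (2 : ℚ) ^ (k * l) * L0 l k x := by
  rw [L0_apply, L0_apply, tau_Psi]
  have h1 := coeff_tau l (Psi l k x * (Vd ℚ l * Vd ℚ l)) (cst l (k + l - 1))
  rw [map_mul, map_mul, tau_Vd] at h1
  have h2 : tau l (Psi l k x) * (MvPolynomial.C ((2 : ℚ) ^ (∑ c : Fin l, (c : ℕ))) * Vd ℚ l *
      (MvPolynomial.C ((2 : ℚ) ^ (∑ c : Fin l, (c : ℕ))) * Vd ℚ l))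
      = MvPolynomial.C ((2 : ℚ) ^ (l * (l - 1))) * (tau l (Psi l k x) * (Vd ℚ l * Vd ℚ l)) := by
    have h3 : (2 : ℚ) ^ (l * (l - 1)) = (2 : ℚ) ^ (∑ c : Fin l, (c : ℕ)) * (2 : ℚ) ^ (∑ c : Fin l, (c : ℕ)) := by
      rw [← pow_add]
      congr 1
      rw [Fin.sum_univ_eq_sum_range (fun c => c) l, ← Finset.sum_range_id_mul_two, mul_two]
    rw [h3, map_mul]
    ring
  rw [h2, MvPolynomial.coeff_C_mul] at h1
  have h4 : (∑ j, cst l (k + l - 1) j) = k * l + l * (l - 1) := by
    simp only [cst_apply, Finset.sum_const, Finset.card_univ, Fintype.card_fin, smul_eq_mul]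
    rcases Nat.eq_zero_or_pos l with h | h
    · subst h; simp
    · obtain ⟨r, rfl⟩ : ∃ r, l = r + 1 := ⟨l - 1, by omega⟩
      have : k + (r + 1) - 1 = k + r := by omega
      rw [this]
      simp only [Nat.add_sub_cancel]
      ring
  rw [h4, pow_add] at h1
  have h5 : (2 : ℚ) ^ (l * (l - 1)) ≠ 0 := by positivity
  apply mul_left_cancel₀ h5
  rw [h1]
  ring

/-! ### nondegeneracy -/

noncomputable def phi (l k : ℕ) : MP l →ₐ[ℚ] RR l k :=
  MvPolynomial.aeval (fun c : Fin l => Ideal.Quotient.mk (II l k) (MvPolynomial.X (Sum.inl c)))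

noncomputable def iot (l k : ℕ) : MP l →ₐ[ℚ] AA l k := MvPolynomial.rename Sum.inl

theorem phi_eq (l k : ℕ) (g : MP l) : phi l k g = Ideal.Quotient.mk (II l k) (iot l k g) := by
  have h : phi l k = (Ideal.Quotient.mkₐ ℚ (II l k)).comp (iot l k) := by
    apply MvPolynomial.algHom_ext
    intro c
    simp [phi, iot]
  rw [h]
  rfl

theorem Psi_iot (l k : ℕ) (g : MP l) : Psi l k (iot l k g) = ey ℚ l g := by
  have h : (Psi l k).comp (iot l k) = ey ℚ l := by
    apply MvPolynomial.algHom_ext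
    intro c
    simp [Psi, iot, ey]
  exact congrArg (fun f => f g) h

theorem SS_coeff_range (l k n : ℕ) : (SS l k).coeff n ∈ (phi l k).range := by
  rcases Nat.eq_zero_or_pos n with h | h
  · subst h
    rw [SS_coeff_zero]
    exact Subalgebra.one_mem _
  · rw [SS, Polynomial.coeff_map, Sg, Polynomial.coeff_add, Polynomial.finsetSum_coeff,
      Polynomial.coeff_one, if_neg (by omega), zero_add, map_sum]
    apply Subalgebra.sum_mem
    intro c _
    rw [Polynomial.coeff_C_mul, Polynomial.coeff_X_pow]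
    split_ifs
    · refine ⟨(-1 : MP l) ^ (c.val + 1) * MvPolynomial.X c, ?_⟩
      simp [phi]
    · rw [mul_zero, map_zero]
      exact Subalgebra.zero_mem _

theorem TT_coeff_range (l k n : ℕ) : (TT l k).coeff n ∈ (phi l k).range := by
  induction n using Nat.strong_induction_on with
  | _ n ih =>
    rcases Nat.eq_zero_or_pos n with h | h
    · subst h
      rw [TT_coeff_zero]
      exact Subalgebra.one_mem _
    · have h1 := congrArg (fun f => Polynomial.coeff f n) (ST_one l k)
      simp only [Polynomial.coeff_mul, Polynomial.coeff_one] at h1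
      rw [if_neg (by omega)] at h1
      have h2 : (0, n) ∈ Finset.HasAntidiagonal.antidiagonal n := by simp
      rw [← Finset.add_sum_erase _ _ h2] at h1
      simp only [SS_coeff_zero, one_mul] at h1
      have h3 : (TT l k).coeff n = - ∑ x ∈ (Finset.HasAntidiagonal.antidiagonal n).erase (0, n),
          (SS l k).coeff x.1 * (TT l k).coeff x.2 := eq_neg_of_add_eq_zero_left h1
      rw [h3]
      apply Subalgebra.neg_mem
      apply Subalgebra.sum_mem
      intro x hx
      rw [Finset.mem_erase] at hx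
      have h4 := Finset.HasAntidiagonal.mem_antidiagonal.mp hx.2
      apply Subalgebra.mul_mem
      · exact SS_coeff_range l k _
      · apply ih
        rcases Nat.eq_zero_or_pos x.1 with h5 | h5
        · exfalso
          apply hx.1
          ext
          · exact h5
          · simp; omega
        · omega

theorem phi_surj (l k : ℕ) (x : RR l k) : ∃ g : MP l, phi l k g = x := by
  obtain ⟨a, rfl⟩ := Ideal.Quotient.mk_surjective x
  have h : (Ideal.Quotient.mkₐ ℚ (II l k)).range ≤ (phi l k).range := by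
    rw [← Algebra.map_top, ← MvPolynomial.adjoin_range_X, AlgHom.map_adjoin, Algebra.adjoin_le_iff]
    rintro _ ⟨_, ⟨c, rfl⟩, rfl⟩
    rcases c with i | j
    · exact ⟨MvPolynomial.X i, by simp [phi]⟩
    · have h1 := TT_coeff_range l k (j.val + 1)
      have h2 : (TT l k).coeff (j.val + 1) = Ideal.Quotient.mk (II l k) (MvPolynomial.X (Sum.inr j)) := by
        rw [TT, Polynomial.coeff_map, Tg, Polynomial.coeff_add, Polynomial.finsetSum_coeff,
          Polynomial.coeff_one, if_neg (by omega), zero_add]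
        rw [Finset.sum_eq_single j]
        · rw [Polynomial.coeff_C_mul, Polynomial.coeff_X_pow, if_pos rfl, mul_one]
        · intro c _ hc
          rw [Polynomial.coeff_C_mul, Polynomial.coeff_X_pow, if_neg, mul_zero]
          intro h
          apply hc
          ext
          omega
        · intro h
          exact absurd (Finset.mem_univ _) h
      rw [h2] at h1
      exact h1
  exact h ⟨a, rfl⟩

theorem Dhat_monic (l : ℕ) : (Dhat ℚ l).Monic := by
  rw [Dhat]
  apply Polynomial.monic_X_pow_add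
  apply (Polynomial.degree_sum_le _ _).trans_lt
  rw [Finset.sup_lt_iff]
  · intro c _
    apply (Polynomial.degree_C_mul_X_pow_le _ _).trans_lt
    have := c.2
    exact_mod_cast (by omega : l - (c.val + 1) < l)
  · exact WithBot.bot_lt_coe l

theorem Dhat_map (l k : ℕ) : (Dhat ℚ l).map (phi l k).toRingHom = Polynomial.reflect l (SS l k) := by
  have hr : ∀ (s : Finset (Fin l)) (f : Fin l → Polynomial (RR l k)),
      Polynomial.reflect l (∑ i ∈ s, f i) = ∑ i ∈ s, Polynomial.reflect l (f i) := by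
    intro s f
    ext1 n
    simp [Polynomial.coeff_reflect, Polynomial.finsetSum_coeff]
  rw [Dhat, SS, Sg, Polynomial.map_add, Polynomial.map_add, Polynomial.map_sum, Polynomial.map_sum,
    Polynomial.reflect_add, hr, Polynomial.map_one, Polynomial.reflect_one, Polynomial.map_pow,
    Polynomial.map_X]
  congr 1
  apply Finset.sum_congr rfl
  intro c _
  rw [Polynomial.map_mul, Polynomial.map_mul, Polynomial.map_C, Polynomial.map_C, Polynomial.map_pow,
    Polynomial.map_pow, Polynomial.map_X, Polynomial.map_X, Polynomial.reflect_C_mul_X_pow,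
    Polynomial.revAt_le (by have := c.2; omega)]
  congr 2
  simp [phi]

theorem Dhat_dvd (l k : ℕ) : (Dhat ℚ l).map (phi l k).toRingHom ∣ (Polynomial.X : Polynomial (RR l k)) ^ (l + k) := by
  refine ⟨Polynomial.reflect k (TT l k), ?_⟩
  rw [Dhat_map, ← Polynomial.reflect_mul, ST_one, Polynomial.reflect_one]
  · rw [Polynomial.natDegree_le_iff_coeff_eq_zero]
    exact fun n hn => SS_coeff_big l k n hn
  · rw [Polynomial.natDegree_le_iff_coeff_eq_zero]
    exact fun n hn => TT_coeff_big l k n hn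

theorem phi_gal (l k : ℕ) (γ : Fin l → ℕ) (r : Fin l) (hr : l + k ≤ γ r) :
    phi l k (gal ℚ l γ) = 0 := by
  rw [gal, AlgHom.map_det]
  apply Matrix.det_eq_zero_of_row_eq_zero r
  intro c
  have h1 : ((Polynomial.X ^ (γ r) %ₘ Dhat ℚ l).map (phi l k).toRingHom) = 0 := by
    rw [Polynomial.map_modByMonic _ (Dhat_monic l), Polynomial.map_pow, Polynomial.map_X,
      Polynomial.modByMonic_eq_zero_iff_dvd ((Dhat_monic l).map _)]
    exact (Dhat_dvd l k).trans (pow_dvd_pow _ hr)
  have h2 := congrArg (fun f => Polynomial.coeff f (c : ℕ)) h1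
  simp only [Polynomial.coeff_map, Polynomial.coeff_zero] at h2
  exact h2

theorem Vd_ne_zero (l : ℕ) : Vd ℚ l ≠ 0 := by
  have h : Vd ℚ l = (Matrix.vandermonde (fun j : Fin l => (MvPolynomial.X j : MP l))).det := rfl
  rw [h, Matrix.det_vandermonde_ne_zero_iff]
  exact MvPolynomial.X_injective

theorem ey_injective (l : ℕ) : Function.Injective (ey ℚ l) := by
  have h := MvPolynomial.esymmAlgHom_fin_injective (R := ℚ) (n := l) (m := l) le_rfl
  intro a b hab
  apply h
  apply Subtype.ext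
  have h2 : ∀ g : MP l, ((MvPolynomial.esymmAlgHom (Fin l) ℚ l g : _) : MP l) = ey ℚ l g := by
    intro g
    rw [MvPolynomial.esymmAlgHom_apply]
    rfl
  rw [h2, h2, hab]

theorem nondeg (hA : S_ALT) (l k : ℕ) (G : MP l)
    (h : ∀ g : MP l, L0 l k (iot l k (G * g)) = 0) : phi l k G = 0 := by
  set F : MP l := ey ℚ l G * Vd ℚ l with hF
  -- step 1: all coefficients of `F * u` at the constant exponent vanish
  have h1 : ∀ β : Fin l →₀ ℕ, MvPolynomial.coeff (cst l (k + l - 1))
      (F * ∏ j, (MvPolynomial.X j : MP l) ^ β j) = 0 := by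
    intro β
    have h2 := coeff_F_Alt l (k + l - 1) G (∏ j, (MvPolynomial.X j : MP l) ^ β j)
    rw [← alt_mono, hA ℚ l β] at h2
    have h3 := h (gal ℚ l β)
    rw [L0_apply, Psi_iot, map_mul] at h3
    have h4 : ey ℚ l G * Vd ℚ l * (ey ℚ l (gal ℚ l β) * Vd ℚ l)
        = ey ℚ l G * ey ℚ l (gal ℚ l β) * (Vd ℚ l * Vd ℚ l) := by ring
    rw [h4, h3] at h2
    have h5 : (l.factorial : ℚ) ≠ 0 := by exact_mod_cast Nat.factorial_ne_zero l
    rcases mul_eq_zero.mp h2.symm with h6 | h6
    · exact absurd h6 h5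
    · exact h6
  -- step 2: every monomial in the support of F has a big exponent
  have h2 : ∀ γ ∈ F.support, ∃ r, l + k ≤ γ r := by
    intro γ hγ
    by_contra hcon
    push Not at hcon
    have hle : γ ≤ cst l (k + l - 1) := by
      intro j
      rw [cst_apply]
      have := hcon j
      omega
    have h3 := h1 (cst l (k + l - 1) - γ)
    have h4 : (∏ j, (MvPolynomial.X j : MP l) ^ (cst l (k + l - 1) - γ) j)
        = MvPolynomial.monomial (cst l (k + l - 1) - γ) (1 : ℚ) := by
      rw [mono_eq, one_smul]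
    rw [h4] at h3
    have h5 : cst l (k + l - 1) = γ + (cst l (k + l - 1) - γ) := by
      rw [add_tsub_cancel_of_le hle]
    rw [MvPolynomial.coeff_mul_monomial', if_pos tsub_le_self, mul_one,
      tsub_tsub_cancel_of_le hle] at h3
    exact (MvPolynomial.mem_support_iff.mp hγ) h3
  -- step 3
  have h3 := Alt_F l G
  rw [Alt_eq hA] at h3
  have h4 : ey ℚ l (∑ γ ∈ F.support, MvPolynomial.coeff γ F • gal ℚ l γ) * Vd ℚ l
      = ey ℚ l ((l.factorial : ℚ) • G) * Vd ℚ l := by
    rw [map_smul, smul_mul_assoc, ← h3, map_sum, Finset.sum_mul]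
    apply Finset.sum_congr rfl
    intro γ _
    rw [map_smul, smul_mul_assoc]
  have h5 := ey_injective l (mul_right_cancel₀ (Vd_ne_zero l) h4)
  have h6 := congrArg (phi l k) h5
  rw [map_sum, map_smul] at h6
  have h7 : ∑ γ ∈ F.support, phi l k (MvPolynomial.coeff γ F • gal ℚ l γ) = 0 := by
    apply Finset.sum_eq_zero
    intro γ hγ
    obtain ⟨r, hr⟩ := h2 γ hγ
    rw [map_smul, phi_gal l k γ r hr, smul_zero]
  rw [h7] at h6
  have h8 : (l.factorial : ℚ) ≠ 0 := by exact_mod_cast Nat.factorial_ne_zero l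
  exact (smul_eq_zero.mp h6.symm).resolve_left h8

/-- descend a functional -/
theorem exists_lift (l k : ℕ) (L : AA l k →ₗ[ℚ] ℚ) (h : ∀ x ∈ II l k, L x = 0) :
    ∃ f : RR l k →ₗ[ℚ] ℚ, ∀ x : AA l k, f (Ideal.Quotient.mk (II l k) x) = L x := by
  refine ⟨((II l k).restrictScalars ℚ).liftQ L (fun x hx => h x hx) ∘ₗ
    (Submodule.Quotient.restrictScalarsEquiv ℚ (II l k)).symm.toLinearMap, ?_⟩
  intro x
  rfl

theorem t_DUAL (hA : S_ALT) (hH : S_HD) : S_DUAL := by
  intro l k
  obtain ⟨f, hf⟩ := exists_lift l k (L0 l k) (L0_II hH l k)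
  refine ⟨f, ?_, ?_⟩
  · intro x
    obtain ⟨a, rfl⟩ := Ideal.Quotient.mk_surjective x
    rw [sig_mk, hf, hf, L0_sig]
  · intro x hx
    obtain ⟨G, rfl⟩ := phi_surj l k x
    apply nondeg hA
    intro g
    have h1 := hx (phi l k g)
    rw [← map_mul, phi_eq, hf] at h1
    exact h1

end Pool.Agent.W241.RT
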